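import Pool.Agent.KS6_45.SP.Powers

/-!
Finitely generated rings whose powers are isomorphic exactly when the exponents are congruent
modulo a given number.
-/

namespace Pool.Agent.Results.MP_1ea425_al.PowersModN

open Pool.Agent.KS6_45.SP

/-- **Theorem.** For every `n ≥ 1` there is a nonzero finitely generated ring `R` such that for all
`i, j ≥ 1` the powers `R ^ i` and `R ^ j` are isomorphic if and only if `i ≡ j` modulo `n`.
For `n = 1` the ring is isomorphic to its own square; for `n ≥ 2` it is isomorphic to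
`R ^ (n + 1)`, and not to its own square. -/
theorem result (n : ℕ) (hn : 1 ≤ n) : ∃ (R : Type) (_ : Ring R), Nontrivial R ∧
    (∃ S : Finset R, Subring.closure (S : Set R) = ⊤) ∧
    (∀ i j : ℕ, 1 ≤ i → 1 ≤ j →
      (Nonempty ((Fin i → R) ≃+* (Fin j → R)) ↔ i ≡ j [MOD n])) ∧
    (Nonempty (R ≃+* R × R) ↔ n = 1) := by
  refine ⟨RR n, inferInstance, nontrivial_RR, fg (beta n) (fn n),
    fun i j hi hj => pow_iff hn hi hj, ?_⟩
  have e1 : (Fin 1 → RR n) ≃+* RR n := RingEquiv.piUnique (fun _ : Fin 1 => RR n)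
  have e2 : (Fin 2 → RR n) ≃+* RR n × RR n :=
    (powAdd (RR n) 1 1).trans (RingEquiv.prodCongr e1 e1)
  have h := pow_iff (n := n) (i := 1) (j := 2) hn le_rfl (by norm_num)
  constructor
  · rintro ⟨e⟩
    have h3 := h.1 ⟨(e1.trans e).trans e2.symm⟩
    have h4 := (Nat.modEq_iff_dvd' (by norm_num : 1 ≤ 2)).1 h3
    exact Nat.dvd_one.1 h4
  · intro h1
    obtain ⟨e⟩ := h.2 (by rw [h1]; exact Nat.modEq_one)
    exact ⟨(e1.symm.trans e).trans e2⟩

end Pool.Agent.Results.MP_1ea425_al.PowersModN
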